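import Mathlib
import Pool.Agent.Lib.Helper30.AssouadDefs
import Pool.Agent.Lib.Helper30.AssouadMain

/-!
# `MP_68e822_an`: in the big Hölder spaces `dim_A G_f = 2` is not typical

For every `0 < α < 1` and `ω(t) = t^α` (a concave modulus with `ω(t)/t → ∞`), the set of
`f ∈ C^ω[0,1]` whose graph has Assouad dimension `< 2` contains a nonempty open set, so it is not
meagre and `{f | dim_A G_f = 2}` is not residual.

The open set consists of the `f` for which there is `c > 0` such that `f` has oscillation at least
`c (v-u)^α` on every interval `[u,v] ⊆ [0,1]`.  The graph of such an `f` is uniformly porous in the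
plane, which gives `dim_A G_f < 2`; a lacunary series shows that the set is nonempty.
-/

set_option autoImplicit false

open Set Filter Topology
open scoped ENNReal

namespace Pool.Agent.Results.MP_68e822_an.HolderNotResidual

open Pool.Agent.Lib.Helper30.AssouadDefs

/-- For every `0 < α < 1` there is a concave modulus of continuity `ω` with `ω(t)/t → ∞`, namely
`ω(t) = t^α`, such that some nonempty open subset of `(C^ω[0,1], ‖·‖_ω)` consists of functions with
`dim_A G_f < 2`; so the set of all such functions is not meagre, and the set of `f` with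
`dim_A G_f = 2` is not residual. -/
theorem result (α : ℝ) (hα0 : 0 < α) (hα1 : α < 1) :
    ∃ ω : Modulus,
      (∀ t ∈ Icc (0 : ℝ) 1, ω t = t ^ α) ∧
      ConcaveOn ℝ (Icc 0 1) ω ∧
      Tendsto (fun t => ω t / t) (𝓝[>] 0) atTop ∧
      (∃ U : Set (Comega ω), IsOpen U ∧ U.Nonempty ∧
        ∀ f ∈ U, assouadDim (graph f.toFun) < 2) ∧
      ¬ IsMeagre {f : Comega ω | assouadDim (graph f.toFun) < 2} ∧
      {f : Comega ω | assouadDim (graph f.toFun) = 2} ∉ residual (Comega ω) :=
  Pool.Agent.Lib.Helper30.AssouadMain.main α hα0 hα1

end Pool.Agent.Results.MP_68e822_an.HolderNotResidual
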